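import Pool.Agent.helper55.VDI.SpecB1
import Pool.Agent.helper32.VD.EG0

/-!
# Project INF (MP_07c750_an), version B: row EG0B, from the eigenfunction `φ` of `e^(f') G'` to `u = e^((d-2) f'/4) φ`
-/

set_option autoImplicit false

open scoped ContDiff Topology InnerProductSpace ComplexConjugate ENNReal
open MeasureTheory Filter Set

namespace Pool.Agent.VDI

open Pool.Agent.VD
open Pool.Agent.VQ (CH KZ PS perZ cmZ)
open Pool.Agent.RPQ (IsOp)
open Pool.Agent.VDA (STP FB FR FT nY OY OA)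
open Pool.Agent.VDE (FDX)

noncomputable section

theorem EG0B_proof (hAQAD : AQAD_stmt) (hAQSD : AQSD_stmt) (hAMVI : AMVI_stmt) : EG0B_stmt := by
  intro d Γ _ _ K F0 r0 χ ch k B B' bn hd2 hK hF hχ hch
  have hFD : FD Γ F0 := by
    obtain ⟨b, hb⟩ := hK.compact.isBounded.exists_norm_le
    exact ⟨hF.meas, hF.uniq, b, fun x hx => hb x (hF.sub hx)⟩
  refine ⟨hFD, fun m n => max (B m n) (B' m n), fun G hG => EG0_cls (fun m n => le_max_left _ _) hG, ?_⟩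
  intro ζ hζ hζ8
  obtain ⟨R1, hR11, hQ⟩ := hAQAD d Γ K k B r0 χ ch ζ hK hχ hch hζ hζ8
  obtain ⟨R2, hR21, hS⟩ := hAQSD d Γ K k B r0 χ ch ζ hK hχ hch hζ hζ8
  refine ⟨max (max R1 R2) (((d : ℝ) + 2) ^ 4), le_trans hR11 ((le_max_left _ _).trans (le_max_left _ _)), ?_⟩
  intro R G G' f f' μ φ hR hG hB
  have hE : EgD Γ B' R G' f f' μ φ := ⟨hB.sm, hB.sm', hB.cl, hB.pos, hB.mu, hB.eig⟩
  have hRR1 : R1 ≤ R := ((le_max_left _ _).trans (le_max_left _ _)).trans hR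
  have hRR2 : R2 ≤ R := ((le_max_right _ _).trans (le_max_left _ _)).trans hR
  have hRR3 : ((d : ℝ) + 2) ^ 4 ≤ R := (le_max_right _ _).trans hR
  obtain ⟨hR1, n1, n2, n3, n4⟩ := EG0_num d R hRR3
  obtain ⟨-, -, -, -, hfin, -, -, -, -⟩ := hAMVI d Γ K k B G hK hG
  have hDm : Dm (⊤ : Subgroup Γ) F0 ({(1 : Γ)} : Set Γ) := Or.inl ⟨rfl, hFD, rfl⟩
  obtain ⟨hQ1, -⟩ := hQ R G hRR1 hG ⊤ F0 {(1 : Γ)} hDm
  obtain ⟨s1, s2, -, -, -, -, s7⟩ := hS R G hRR2 hG
  obtain ⟨s8, -⟩ := s7 ⊤ F0 {(1 : Γ)} hDm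
  obtain ⟨b, hb⟩ := hFD.bdd
  have hφc : Continuous φ := hE.eig.1.continuous
  have hφi : Inv Γ φ := hE.eig.2.1
  have hfc : Continuous f' := hE.sm'.smooth.continuous
  have huc : Continuous (uE f' φ) := by
    unfold uE
    exact (Complex.continuous_ofReal.comp (Real.continuous_exp.comp (continuous_const.mul hfc))).mul hφc
  have hui : Inv Γ (uE f' φ) := by
    intro γ x
    unfold uE
    rw [hφi γ x, hE.sm'.inv γ x]
  have hFH : ∀ ψ : V d → ℂ, Continuous ψ → Inv Γ ψ → FH (⊤ : Subgroup Γ) F0 ψ := fun ψ h1 h2 =>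
    ⟨h1, fun γ _ z => h2 γ z, b, fun z hz _ => hb z hz⟩
  have hpt : ∀ z, ‖uE f' φ z - φ z‖ ≤ R ^ (-(1 / 2) : ℝ) * ‖φ z‖ := by
    intro z
    have h1 : uE f' φ z - φ z = ((Real.exp (((d : ℝ) - 2) / 4 * f' z) - 1 : ℝ) : ℂ) * φ z := by
      unfold uE
      push_cast
      ring
    rw [h1, norm_mul, Complex.norm_real, Real.norm_eq_abs]
    exact mul_le_mul_of_nonneg_right (EG0_exp d R (f' z) hRR3 (hE.sm'.bd z)) (norm_nonneg _)
  have hr0 : 0 ≤ R ^ (-(1 / 2) : ℝ) := Real.rpow_nonneg (by linarith) _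
  have hdc : Continuous fun z => uE f' φ z - φ z := huc.sub hφc
  have hdi : Inv Γ fun z => uE f' φ z - φ z := fun γ x => by
    change uE f' φ (γ • x) - φ (γ • x) = uE f' φ x - φ x
    rw [hui γ x, hφi γ x]
  have hnd : nn G F0 (fun z => uE f' φ z - φ z) ≤ R ^ (-1 : ℝ) * nn G F0 φ := by
    refine EG0_nn G hfin K F0 hK.compact hF.meas hF.sub _ _ hdc hφc _ fun z => ?_
    rw [← n4, ← mul_pow]
    exact pow_le_pow_left₀ (norm_nonneg _) (hpt z) 2
  refine ⟨⟨EG0_cls (fun m n => le_max_left _ _) hB.nr.cls, hB.nr.cl⟩, EG0_egt (B := B) (fun m n => le_max_right _ _) hR1 hE, hFH φ hφc hφi, hFH _ huc hui, hpt, ?_, ?_, hnd,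
    (s8 φ (hFH φ hφc hφi)).1, (s8 _ (hFH _ huc hui)).1, ?_, (hQ1 φ (hFH φ hφc hφi)).1⟩
  · refine EG0_nn G hfin K F0 hK.compact hF.meas hF.sub _ _ huc hφc _ fun z => ?_
    have h1 : ‖uE f' φ z‖ ≤ 5 / 4 * ‖φ z‖ := by
      have h2 : ‖uE f' φ z‖ ≤ ‖uE f' φ z - φ z‖ + ‖φ z‖ := by
        calc ‖uE f' φ z‖ = ‖(uE f' φ z - φ z) + φ z‖ := by rw [sub_add_cancel]
          _ ≤ _ := norm_add_le _ _
      have h3 := hpt z
      have h4 := norm_nonneg (φ z)
      nlinarith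
    have h5 := norm_nonneg (uE f' φ z)
    have h6 := norm_nonneg (φ z)
    nlinarith
  · refine EG0_nn G hfin K F0 hK.compact hF.meas hF.sub _ _ hφc huc _ fun z => ?_
    have h1 : 3 / 4 * ‖φ z‖ ≤ ‖uE f' φ z‖ := by
      have h2 : ‖φ z‖ ≤ ‖uE f' φ z - φ z‖ + ‖uE f' φ z‖ := by
        calc ‖φ z‖ = ‖-(uE f' φ z - φ z) + uE f' φ z‖ := by congr 1; ring
          _ ≤ ‖-(uE f' φ z - φ z)‖ + ‖uE f' φ z‖ := norm_add_le _ _
          _ = _ := by rw [norm_neg]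
      have h3 := hpt z
      have h4 := norm_nonneg (φ z)
      nlinarith
    have h5 := norm_nonneg (uE f' φ z)
    have h6 := norm_nonneg (φ z)
    nlinarith
  · have hlin : (fun y : YS Γ d => QF G χ ch ζ R (uE f' φ) y - QF G χ ch ζ R φ y) =
        QF G χ ch ζ R (fun z => uE f' φ z - φ z) := by
      funext y
      have hgc : Continuous (Gp G χ ch ζ R y) := (s1 y.1).comp (continuous_const.prodMk continuous_id)
      have hgs : ∀ z, Gp G χ ch ζ R y z ≠ 0 → ‖y.1⁻¹ • z‖ ≤ r0 := fun z hz => (s2 y z hz).2.2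
      have j1 := EG0_int hK.smooth G hfin r0 y _ hgc hgs (uE f' φ) huc
      have j2 := EG0_int hK.smooth G hfin r0 y _ hgc hgs φ hφc
      unfold QF
      rw [← integral_sub j1 j2]
      refine integral_congr_ae (Eventually.of_forall fun z => ?_)
      change uE f' φ z * conj (Gp G χ ch ζ R y z) - φ z * conj (Gp G χ ch ζ R y z) =
        (uE f' φ z - φ z) * conj (Gp G χ ch ζ R y z)
      ring
    rw [hlin]
    have h1 := (hQ1 _ (hFH _ hdc hdi)).1
    have h2 : 0 ≤ nn G F0 φ := by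
      unfold nn
      exact integral_nonneg fun z => by positivity
    have h3 : 0 ≤ R ^ (-1 : ℝ) := Real.rpow_nonneg (by linarith) _
    have h5 : 0 ≤ nn G F0 (fun z => uE f' φ z - φ z) := by
      unfold nn
      exact integral_nonneg fun z => by positivity
    calc nP G r0 {(1 : Γ)} 2 R (QF G χ ch ζ R (fun z => uE f' φ z - φ z))
        ≤ (1 + R ^ (-(1 / 4) : ℝ)) * nn G F0 (fun z => uE f' φ z - φ z) := h1
      _ ≤ 2 * nn G F0 (fun z => uE f' φ z - φ z) := mul_le_mul_of_nonneg_right (by linarith) h5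
      _ ≤ 2 * (R ^ (-1 : ℝ) * nn G F0 φ) := by linarith
      _ = 2 * R ^ (-1 : ℝ) * nn G F0 φ := by ring

end

end Pool.Agent.VDI
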